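import Mathlib

/-!
# Inequivalent, non-extreme subsets of `Z_16` with equal Sidon constants
-/

open Complex

namespace Pool.Agent.Results.MP_e96fbd_an.CyclicSixteen

/-- The character `χ_x(t) = exp(2πi x t / k)` of `Z_k`. -/
noncomputable def chi (k : ℕ) (x t : ZMod k) : ℂ :=
  exp (2 * Real.pi * I * ((x.val : ℂ) * (t.val : ℂ)) / (k : ℂ))

/-- The value at `t` of the `E`-polynomial with coefficients `a`. -/
noncomputable def poly (k : ℕ) (E : Finset (ZMod k)) (a : ZMod k → ℂ) (t : ZMod k) : ℂ :=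
  ∑ x ∈ E, a x * chi k x t

/-- The Sidon constant of `E ⊆ Z_k`. -/
noncomputable def sidon (k : ℕ) (E : Finset (ZMod k)) : ℝ :=
  sSup {s : ℝ | ∃ a : ZMod k → ℂ, (∀ t, ‖poly k E a t‖ ≤ 1) ∧ s = ∑ x ∈ E, ‖a x‖}

/-- `E` is extreme. -/
def Extreme (k : ℕ) (E : Finset (ZMod k)) : Prop := sidon k E = Real.sqrt (E.card : ℝ)

/-- `F = uE + c` for some unit `u` and some `c`. -/
def Equivalent (k : ℕ) (E F : Finset (ZMod k)) : Prop :=
  ∃ u : (ZMod k)ˣ, ∃ c : ZMod k, F = E.image (fun x => (u : ZMod k) * x + c)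

/-- four points on a circle -/
lemma four {z g : ℂ} (h0 : ‖z + g‖ ≤ 1) (h1 : ‖z + g * I‖ ≤ 1) (h2 : ‖z - g‖ ≤ 1)
    (h3 : ‖z - g * I‖ ≤ 1) : ‖z‖ ^ 2 + ‖g‖ ^ 2 + Real.sqrt 2 * (‖z‖ * ‖g‖) ≤ 1 := by
  have e0 : ‖z + g‖ ^ 2 ≤ 1 := by have := norm_nonneg (z + g); nlinarith
  have e1 : ‖z + g * I‖ ^ 2 ≤ 1 := by have := norm_nonneg (z + g * I); nlinarith
  have e2 : ‖z - g‖ ^ 2 ≤ 1 := by have := norm_nonneg (z - g); nlinarith
  have e3 : ‖z - g * I‖ ^ 2 ≤ 1 := by have := norm_nonneg (z - g * I); nlinarith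
  rw [← normSq_eq_norm_sq, normSq_apply] at e0 e1 e2 e3
  simp only [add_re, add_im, sub_re, sub_im, mul_re, mul_im, I_re, I_im, mul_zero, mul_one,
    zero_sub, add_zero, zero_add] at e0 e1 e2 e3
  set p := z.re * g.re + z.im * g.im with hp
  set q := z.im * g.re - z.re * g.im with hq
  have hz : ‖z‖ ^ 2 = z.re * z.re + z.im * z.im := by rw [← normSq_eq_norm_sq, normSq_apply]
  have hg : ‖g‖ ^ 2 = g.re * g.re + g.im * g.im := by rw [← normSq_eq_norm_sq, normSq_apply]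
  have hpq : (‖z‖ * ‖g‖) ^ 2 = p ^ 2 + q ^ 2 := by
    rw [mul_pow, hz, hg, hp, hq]; ring
  set N := ‖z‖ * ‖g‖ with hN
  have hN0 : 0 ≤ N := by positivity
  set m := max |p| |q| with hm
  have hm0 : 0 ≤ m := le_max_of_le_left (abs_nonneg _)
  have hNm : Real.sqrt 2 * N ≤ 2 * m := by
    have h2 : Real.sqrt 2 * Real.sqrt 2 = 2 := Real.mul_self_sqrt (by norm_num)
    apply le_of_sq_le_sq _ (by positivity)
    have h3 : p ^ 2 ≤ m ^ 2 := by
      rw [← sq_abs p]; exact pow_le_pow_left₀ (abs_nonneg _) (le_max_left _ _) 2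
    have h4 : q ^ 2 ≤ m ^ 2 := by
      rw [← sq_abs q]; exact pow_le_pow_left₀ (abs_nonneg _) (le_max_right _ _) 2
    calc (Real.sqrt 2 * N) ^ 2 = (Real.sqrt 2 * Real.sqrt 2) * N ^ 2 := by ring
      _ = 2 * (p ^ 2 + q ^ 2) := by rw [h2, hpq]
      _ ≤ (2 * m) ^ 2 := by nlinarith
  have hmb : ‖z‖ ^ 2 + ‖g‖ ^ 2 + 2 * m ≤ 1 := by
    rw [hz, hg]
    have hle : m ≤ (1 - (z.re * z.re + z.im * z.im) - (g.re * g.re + g.im * g.im)) / 2 := by
      apply max_le
      · rw [abs_le]; constructor <;> nlinarith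
      · rw [abs_le]; constructor <;> nlinarith
    linarith
  linarith

/-- the final inequality -/
lemma key {α β g : ℂ} (h0 : ‖α + β‖ ^ 2 + ‖g‖ ^ 2 + Real.sqrt 2 * (‖α + β‖ * ‖g‖) ≤ 1)
    (h1 : ‖α - β‖ ^ 2 + ‖g‖ ^ 2 + Real.sqrt 2 * (‖α - β‖ * ‖g‖) ≤ 1) :
    ‖α‖ + ‖β‖ + ‖g‖ ≤ Real.sqrt 2 := by
  set M := max ‖α + β‖ ‖α - β‖ with hM
  have hM0 : 0 ≤ M := le_max_of_le_left (norm_nonneg _)
  have hMg : M ^ 2 + ‖g‖ ^ 2 + Real.sqrt 2 * (M * ‖g‖) ≤ 1 := by
    rcases max_choice ‖α + β‖ ‖α - β‖ with h | h <;> rw [hM, h]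
    · exact h0
    · exact h1
  have hpar : ‖α + β‖ ^ 2 + ‖α - β‖ ^ 2 = 2 * (‖α‖ ^ 2 + ‖β‖ ^ 2) := by
    have := parallelogram_law_with_norm ℝ α β
    nlinarith
  have hs2 : Real.sqrt 2 * Real.sqrt 2 = 2 := Real.mul_self_sqrt (by norm_num)
  have hs0 : 0 ≤ Real.sqrt 2 := Real.sqrt_nonneg _
  have hab : ‖α‖ + ‖β‖ ≤ Real.sqrt 2 * M := by
    apply le_of_sq_le_sq _ (by positivity)
    have h3 : ‖α + β‖ ^ 2 ≤ M ^ 2 := pow_le_pow_left₀ (norm_nonneg _) (le_max_left _ _) 2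
    have h4 : ‖α - β‖ ^ 2 ≤ M ^ 2 := pow_le_pow_left₀ (norm_nonneg _) (le_max_right _ _) 2
    calc (‖α‖ + ‖β‖) ^ 2 ≤ 2 * (‖α‖ ^ 2 + ‖β‖ ^ 2) := by nlinarith [sq_nonneg (‖α‖ - ‖β‖)]
      _ ≤ 2 * M ^ 2 := by linarith
      _ = (Real.sqrt 2 * M) ^ 2 := by rw [mul_pow]; nlinarith
  have hg0 := norm_nonneg g
  calc ‖α‖ + ‖β‖ + ‖g‖ ≤ Real.sqrt 2 * M + ‖g‖ := by linarith
    _ ≤ Real.sqrt 2 := by
      apply le_of_sq_le_sq _ hs0
      have : (Real.sqrt 2 * M + ‖g‖) ^ 2 = 2 * M ^ 2 + 2 * (Real.sqrt 2 * (M * ‖g‖)) + ‖g‖ ^ 2 := by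
        have : (Real.sqrt 2 * M + ‖g‖) ^ 2 = (Real.sqrt 2 * Real.sqrt 2) * M ^ 2 +
          2 * (Real.sqrt 2 * (M * ‖g‖)) + ‖g‖ ^ 2 := by ring
        rw [this, hs2]
      rw [this, sq (Real.sqrt 2), hs2]
      nlinarith [sq_nonneg ‖g‖]

/-- value of a character through the exponent modulo `16` -/
lemma chi_eq (x t : ZMod 16) (r : ℕ) (h : (x.val * t.val) % 16 = r) :
    chi 16 x t = exp (2 * Real.pi * I / 16) ^ r := by
  unfold chi
  rw [← Complex.exp_nat_mul]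
  have h1 : x.val * t.val = 16 * ((x.val * t.val) / 16) + r := by omega
  have h2 : (x.val : ℂ) * (t.val : ℂ) = 16 * ((x.val * t.val / 16 : ℕ) : ℂ) + (r : ℂ) := by
    exact_mod_cast congrArg (fun n : ℕ => (n : ℂ)) h1
  rw [h2, show 2 * (Real.pi : ℂ) * I * (16 * ((x.val * t.val / 16 : ℕ) : ℂ) + (r : ℂ)) /
    ((16 : ℕ) : ℂ) = (r : ℂ) * (2 * Real.pi * I / 16) +
      ((x.val * t.val / 16 : ℕ) : ℂ) * (2 * Real.pi * I) by push_cast; field_simp; ring]
  rw [Complex.exp_add, Complex.exp_nat_mul_two_pi_mul_I, mul_one]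

/-- the primitive root of unity -/
noncomputable def ζ : ℂ := exp (2 * Real.pi * I / 16)

lemma ζ4 : ζ ^ 4 = I := by
  unfold ζ
  rw [← Complex.exp_nat_mul, show ((4 : ℕ) : ℂ) * (2 * Real.pi * I / 16) = Real.pi / 2 * I by
    push_cast; ring, Complex.exp_pi_div_two_mul_I]

lemma ζ8 : ζ ^ 8 = -1 := by rw [show 8 = 4 * 2 by norm_num, pow_mul, ζ4, I_sq]

lemma ζ12 : ζ ^ 12 = -I := by
  rw [show 12 = 8 + 4 by norm_num, pow_add, ζ8, ζ4]; ring

lemma ζ16 : ζ ^ 16 = 1 := by rw [show 16 = 8 * 2 by norm_num, pow_mul, ζ8]; norm_num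

lemma norm_ζ : ‖ζ‖ = 1 := by
  unfold ζ
  rw [show 2 * (Real.pi : ℂ) * I / 16 = ((2 * Real.pi / 16 : ℝ) : ℂ) * I by push_cast; ring,
    Complex.norm_exp_ofReal_mul_I]

lemma upper1 (a : ZMod 16 → ℂ) (h : ∀ t, ‖poly 16 {0, 1, 8} a t‖ ≤ 1) :
    ‖a 0‖ + ‖a 1‖ + ‖a 8‖ ≤ Real.sqrt 2 := by
  have hp : ∀ t : ZMod 16, poly 16 {0, 1, 8} a t =
      a 0 * chi 16 0 t + (a 1 * chi 16 1 t + a 8 * chi 16 8 t) := by
    intro t
    unfold poly
    rw [Finset.sum_insert (by decide), Finset.sum_insert (by decide), Finset.sum_singleton]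
  have val : ∀ (t : ZMod 16) (r s : ℕ), ((1 : ZMod 16).val * t.val) % 16 = r →
      ((8 : ZMod 16).val * t.val) % 16 = s →
      ‖a 0 + (a 1 * ζ ^ r + a 8 * ζ ^ s)‖ ≤ 1 := by
    intro t r s hr hs
    have := h t
    rw [hp, chi_eq 0 t 0 (by simp), chi_eq 1 t r hr, chi_eq 8 t s hs, pow_zero, mul_one] at this
    exact this
  have f0 := four (z := a 0 + a 8) (g := a 1)
    (by have := val 0 0 0 (by decide) (by decide); simp only [pow_zero, mul_one] at this
        convert this using 2; ring)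
    (by have := val 4 4 0 (by decide) (by decide); rw [ζ4, pow_zero] at this
        convert this using 2; ring)
    (by have := val 8 8 0 (by decide) (by decide); rw [ζ8, pow_zero] at this
        convert this using 2; ring)
    (by have := val 12 12 0 (by decide) (by decide); rw [ζ12, pow_zero] at this
        convert this using 2; ring)
  have f1 := four (z := a 0 - a 8) (g := a 1 * ζ)
    (by have := val 1 1 8 (by decide) (by decide); rw [ζ8, pow_one] at this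
        convert this using 2; ring)
    (by have := val 5 5 8 (by decide) (by decide)
        rw [ζ8, show ζ ^ 5 = ζ ^ 4 * ζ by ring, ζ4] at this
        convert this using 2; ring)
    (by have := val 9 9 8 (by decide) (by decide)
        rw [show ζ ^ 9 = ζ ^ 8 * ζ by ring, ζ8] at this
        convert this using 2; ring)
    (by have := val 13 13 8 (by decide) (by decide)
        rw [ζ8, show ζ ^ 13 = ζ ^ 12 * ζ by ring, ζ12] at this
        convert this using 2; ring)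
  rw [norm_mul, norm_ζ, mul_one] at f1
  have := key f0 f1
  linarith

lemma upper2 (a : ZMod 16 → ℂ) (h : ∀ t, ‖poly 16 {0, 2, 8} a t‖ ≤ 1) :
    ‖a 0‖ + ‖a 2‖ + ‖a 8‖ ≤ Real.sqrt 2 := by
  have hp : ∀ t : ZMod 16, poly 16 {0, 2, 8} a t =
      a 0 * chi 16 0 t + (a 2 * chi 16 2 t + a 8 * chi 16 8 t) := by
    intro t
    unfold poly
    rw [Finset.sum_insert (by decide), Finset.sum_insert (by decide), Finset.sum_singleton]
  have val : ∀ (t : ZMod 16) (r s : ℕ), ((2 : ZMod 16).val * t.val) % 16 = r →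
      ((8 : ZMod 16).val * t.val) % 16 = s →
      ‖a 0 + (a 2 * ζ ^ r + a 8 * ζ ^ s)‖ ≤ 1 := by
    intro t r s hr hs
    have := h t
    rw [hp, chi_eq 0 t 0 (by simp), chi_eq 2 t r hr, chi_eq 8 t s hs, pow_zero, mul_one] at this
    exact this
  have f0 := four (z := a 0 + a 8) (g := a 2)
    (by have := val 0 0 0 (by decide) (by decide); simp only [pow_zero, mul_one] at this
        convert this using 2; ring)
    (by have := val 2 4 0 (by decide) (by decide); rw [ζ4, pow_zero] at this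
        convert this using 2; ring)
    (by have := val 4 8 0 (by decide) (by decide); rw [ζ8, pow_zero] at this
        convert this using 2; ring)
    (by have := val 6 12 0 (by decide) (by decide); rw [ζ12, pow_zero] at this
        convert this using 2; ring)
  have f1 := four (z := a 0 - a 8) (g := a 2 * ζ ^ 2)
    (by have := val 1 2 8 (by decide) (by decide); rw [ζ8] at this
        convert this using 2; ring)
    (by have := val 3 6 8 (by decide) (by decide)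
        rw [ζ8, show ζ ^ 6 = ζ ^ 4 * ζ ^ 2 by ring, ζ4] at this
        convert this using 2; ring)
    (by have := val 5 10 8 (by decide) (by decide)
        rw [show ζ ^ 10 = ζ ^ 8 * ζ ^ 2 by ring, ζ8] at this
        convert this using 2; ring)
    (by have := val 7 14 8 (by decide) (by decide)
        rw [ζ8, show ζ ^ 14 = ζ ^ 12 * ζ ^ 2 by ring, ζ12] at this
        convert this using 2; ring)
  rw [norm_mul, norm_pow, norm_ζ, one_pow, mul_one] at f1
  have := key f0 f1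
  linarith

/-- the lower bound -/
lemma lower (x : ZMod 16) (h0 : x ≠ 0) (h8 : x ≠ 8) :
    ∃ a : ZMod 16 → ℂ, (∀ t, ‖poly 16 {0, x, 8} a t‖ ≤ 1) ∧
      Real.sqrt 2 = ∑ y ∈ ({0, x, 8} : Finset (ZMod 16)), ‖a y‖ := by
  have hs2 : Real.sqrt 2 * Real.sqrt 2 = 2 := Real.mul_self_sqrt (by norm_num)
  have hs0 : 0 < Real.sqrt 2 := Real.sqrt_pos.mpr (by norm_num)
  have hd1 : (0 : ZMod 16) ∉ ({x, 8} : Finset (ZMod 16)) := by
    simp only [Finset.mem_insert, Finset.mem_singleton, not_or]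
    exact ⟨fun h => h0 h.symm, by decide⟩
  have hd2 : x ∉ ({8} : Finset (ZMod 16)) := by simpa using h8
  refine ⟨fun y => if y = 0 then (1 / Real.sqrt 2 : ℝ) else if y = 8 then (1 / Real.sqrt 2 : ℝ) * I
    else 0, fun t => ?_, ?_⟩
  · unfold poly
    rw [Finset.sum_insert hd1, Finset.sum_insert hd2, Finset.sum_singleton]
    have h80 : (8 : ZMod 16) ≠ 0 := by decide
    simp only [if_true, h0, h8, h80, if_false, zero_mul, zero_add]
    have hc : chi 16 8 t = 1 ∨ chi 16 8 t = -1 := by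
      have hv : (8 : ZMod 16).val * t.val % 16 = 0 ∨ (8 : ZMod 16).val * t.val % 16 = 8 := by
        have : (8 : ZMod 16).val = 8 := by decide
        rw [this]; omega
      rcases hv with hv | hv
      · left; rw [chi_eq 8 t 0 hv, pow_zero]
      · right; rw [chi_eq 8 t 8 hv]; exact ζ8
    rw [chi_eq 0 t 0 (by simp), pow_zero, mul_one]
    have hn : ‖((1 / Real.sqrt 2 : ℝ) : ℂ) + ((1 / Real.sqrt 2 : ℝ) : ℂ) * I * chi 16 8 t‖ ^ 2 =
        1 := by
      rw [← normSq_eq_norm_sq, normSq_apply]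
      rcases hc with hc | hc <;> rw [hc]
      · simp only [mul_one, add_re, add_im, ofReal_re, ofReal_im, mul_re, mul_im, I_re, I_im,
          mul_zero, zero_mul, sub_self, add_zero, zero_add, sub_zero]
        field_simp
        nlinarith
      · simp only [mul_neg, mul_one, add_re, add_im, neg_re, neg_im, ofReal_re, ofReal_im, mul_re,
          mul_im, I_re, I_im, mul_zero, zero_mul, sub_self, add_zero, zero_add, sub_zero, neg_zero]
        field_simp
        nlinarith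
    have := norm_nonneg (((1 / Real.sqrt 2 : ℝ) : ℂ) + ((1 / Real.sqrt 2 : ℝ) : ℂ) * I *
      chi 16 8 t)
    nlinarith
  · rw [Finset.sum_insert hd1, Finset.sum_insert hd2, Finset.sum_singleton]
    have h80 : (8 : ZMod 16) ≠ 0 := by decide
    simp only [if_true, h0, h8, h80, if_false, norm_zero, zero_add, norm_mul, norm_I, mul_one,
      norm_real, Real.norm_eq_abs, abs_of_pos (one_div_pos.mpr hs0)]
    field_simp
    nlinarith

lemma sidon_eq (x : ZMod 16) (h0 : x ≠ 0) (h8 : x ≠ 8)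
    (hu : ∀ a : ZMod 16 → ℂ, (∀ t, ‖poly 16 {0, x, 8} a t‖ ≤ 1) →
      ‖a 0‖ + ‖a x‖ + ‖a 8‖ ≤ Real.sqrt 2) : sidon 16 {0, x, 8} = Real.sqrt 2 := by
  have hd1 : (0 : ZMod 16) ∉ ({x, 8} : Finset (ZMod 16)) := by
    simp only [Finset.mem_insert, Finset.mem_singleton, not_or]
    exact ⟨fun h => h0 h.symm, by decide⟩
  have hd2 : x ∉ ({8} : Finset (ZMod 16)) := by simpa using h8
  apply IsGreatest.csSup_eq
  refine ⟨lower x h0 h8, ?_⟩
  rintro s ⟨a, ha, rfl⟩
  rw [Finset.sum_insert hd1, Finset.sum_insert hd2, Finset.sum_singleton]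
  have := hu a ha
  linarith

/-- **Main result.** In `Z_16` the sets `{0, 1, 8}` and `{0, 2, 8}` are inequivalent, have the same
Sidon constant `√2`, and are not extreme. -/
theorem result :
    sidon 16 {0, 1, 8} = Real.sqrt 2 ∧ sidon 16 {0, 2, 8} = Real.sqrt 2 ∧
    ¬ Equivalent 16 {0, 1, 8} {0, 2, 8} ∧ ¬ Extreme 16 {0, 1, 8} ∧ ¬ Extreme 16 {0, 2, 8} ∧
    ¬ ∀ k : ℕ, 1 ≤ k → ∀ E F : Finset (ZMod k), E.Nonempty → F.Nonempty → E.card = F.card →
      sidon k E = sidon k F → ¬ Equivalent k E F → Extreme k E ∧ Extreme k F := by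
  have h1 : sidon 16 {0, 1, 8} = Real.sqrt 2 := sidon_eq 1 (by decide) (by decide) upper1
  have h2 : sidon 16 {0, 2, 8} = Real.sqrt 2 := sidon_eq 2 (by decide) (by decide) upper2
  have hne : ¬ Equivalent 16 {0, 1, 8} {0, 2, 8} := by
    unfold Equivalent
    decide
  have hx : ∀ E : Finset (ZMod 16), E.card = 3 → sidon 16 E = Real.sqrt 2 → ¬ Extreme 16 E := by
    intro E hc hs hE
    unfold Extreme at hE
    rw [hs, hc, Real.sqrt_inj (by norm_num) (by norm_num)] at hE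
    norm_num at hE
  have e1 : ¬ Extreme 16 {0, 1, 8} := hx _ (by decide) h1
  refine ⟨h1, h2, hne, e1, hx _ (by decide) h2, fun h => ?_⟩
  exact e1 (h 16 (by norm_num) {0, 1, 8} {0, 2, 8} ⟨0, by decide⟩ ⟨0, by decide⟩ (by decide)
    (by rw [h1, h2]) hne).1

end Pool.Agent.Results.MP_e96fbd_an.CyclicSixteen
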